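import Pool.Agent.H18.HX.Targets
import Pool.Agent.H99.HIT.RTD

set_option autoImplicit false

open MvPolynomial
open Pool.Agent.H12.ZD (pmap v O Res DenseOrbit NoInv)
open Pool.Agent.H18.HIT Pool.Agent.H18.HX

namespace Pool.Agent.H40.HX

/-- the Hilbert function of `I` is bounded by that of `I + (c)` -/
theorem hf_le (L : ℕ) (k : Type) [Field k] (I : Ideal (Po L k)) (f : Tup L k) (c : Po L k)
    (S : Finset (Fin L →₀ ℕ)) (t t' : ℕ)
    (hinv : ∀ c ∈ I, aeval f c ∈ I) (hc : aeval f c ∈ I)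
    (hS : ∀ u : Po L k, u.totalDegree ≤ t → ∃ c : (Fin L →₀ ℕ) → Po L k,
      (∀ m, (c m).totalDegree ≤ t') ∧ u - ∑ m ∈ S, monomial m 1 * aeval f (c m) ∈ I) :
    Hf I t ≤ S.card * Hf (I ⊔ Ideal.span {c}) t' := by
  classical
  obtain ⟨I', hI'⟩ : ∃ I' : Ideal (Po L k), I' = I ⊔ Ideal.span {c} := ⟨_, rfl⟩
  rw [← hI']
  have hker : ∀ a : Po L k, a ∈ I' → ((Ideal.Quotient.mkₐ k I).comp (aeval f)) a = 0 := by
    intro a ha
    rw [hI', Submodule.mem_sup] at ha
    obtain ⟨y, hy, z, hz, rfl⟩ := ha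
    rw [Ideal.mem_span_singleton] at hz
    obtain ⟨w, rfl⟩ := hz
    have h1 : (Ideal.Quotient.mk I) (aeval f y) = 0 := Ideal.Quotient.eq_zero_iff_mem.2 (hinv y hy)
    have h2 : (Ideal.Quotient.mk I) (aeval f c) = 0 := Ideal.Quotient.eq_zero_iff_mem.2 hc
    show (Ideal.Quotient.mk I) (aeval f (y + c * w)) = 0
    rw [map_add, map_mul, map_add, map_mul, h1, h2, zero_mul, add_zero]
  obtain ⟨φ, hφ⟩ : ∃ φ : (Po L k ⧸ I') →ₐ[k] (Po L k ⧸ I),
      ∀ a, φ (Ideal.Quotient.mk I' a) = Ideal.Quotient.mk I (aeval f a) :=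
    ⟨Ideal.Quotient.liftₐ I' ((Ideal.Quotient.mkₐ k I).comp (aeval f)) hker, fun a => rfl⟩
  have hfin : Module.Finite k (restrictTotalDegree (Fin L) k t') :=
    (Pool.Agent.H99.HIT.pf_RTD L k t').1
  obtain ⟨U, hU⟩ : ∃ U : Submodule k (Po L k ⧸ I'), U = Submodule.map
    (Ideal.Quotient.mkₐ k I').toLinearMap (restrictTotalDegree (Fin L) k t') := ⟨_, rfl⟩
  have hUf : Module.Finite k U := by
    rw [hU]
    exact Module.Finite.map _ _
  obtain ⟨Φ, hΦ⟩ : ∃ Φ : (S → U) →ₗ[k] (Po L k ⧸ I), ∀ v, Φ v =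
      ∑ m : S, Ideal.Quotient.mk I (monomial (m : Fin L →₀ ℕ) (1 : k)) *
        φ ((v m : U) : Po L k ⧸ I') := by
    refine ⟨∑ m : S, (LinearMap.mulLeft k (Ideal.Quotient.mk I
      (monomial (m : Fin L →₀ ℕ) (1 : k)))) ∘ₗ φ.toLinearMap ∘ₗ U.subtype ∘ₗ
      (LinearMap.proj m), fun v => ?_⟩
    rw [LinearMap.sum_apply]
    rfl
  have hle : Submodule.map (Ideal.Quotient.mkₐ k I).toLinearMap
      (restrictTotalDegree (Fin L) k t) ≤ LinearMap.range Φ := by
    rintro _ ⟨u, hu, rfl⟩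
    have hu' : u.totalDegree ≤ t := (mem_restrictTotalDegree _ _ _).1 hu
    obtain ⟨cc, hcc, hdiff⟩ := hS u hu'
    refine ⟨fun m => ⟨Ideal.Quotient.mk I' (cc m), ?_⟩, ?_⟩
    · rw [hU]
      exact ⟨cc m, (mem_restrictTotalDegree _ _ _).2 (hcc m), rfl⟩
    · rw [hΦ]
      have h1 : (Ideal.Quotient.mk I) u = (Ideal.Quotient.mk I)
          (∑ m ∈ S, monomial m 1 * aeval f (cc m)) := Ideal.Quotient.eq.2 hdiff
      show _ = (Ideal.Quotient.mk I) u
      rw [h1, map_sum, ← Finset.sum_coe_sort S]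
      refine Finset.sum_congr rfl fun m _ => ?_
      rw [hφ, map_mul]
  have h1 : Hf I t ≤ Module.finrank k (LinearMap.range Φ) := by
    unfold Hf
    exact Submodule.finrank_mono hle
  have h2 : Module.finrank k (LinearMap.range Φ) ≤ Module.finrank k (S → U) :=
    LinearMap.finrank_range_le Φ
  have h3 : Module.finrank k (S → U) = S.card * Module.finrank k U := by
    rw [Module.finrank_pi_fintype, Finset.sum_const, Finset.card_univ, Fintype.card_coe,
      smul_eq_mul]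
  have h4 : Module.finrank k U = Hf I' t' := by
    rw [hU]
    rfl
  rw [h3, h4] at h2
  exact h1.trans h2

theorem pf_INR (hGEN : T_GEN) (hHLO : T_HLO) (hHUP : T_HUP) : T_INR := by
  intro L N q k _ _ I _ l f hN hq hl hI hli hint hf hbp hinv
  refine ⟨hinv, ?_⟩
  intro c hc
  by_contra hcI
  obtain ⟨M, hM⟩ := hGEN L q k I f hq hI hf hbp
  obtain ⟨B, hB⟩ := hHUP L N k I l c hl hI hli hint hcI
  have hlo := hHLO L N k I l hl hli
  obtain ⟨S, hS⟩ : ∃ S : Finset (Fin L →₀ ℕ),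
    S = (Finset.Iic (Finsupp.equivFunOnFinite.symm fun _ : Fin L => M)) := ⟨_, rfl⟩
  have hbd : ∀ t, (t + N).choose N ≤ S.card * (B * (t + 1) ^ (N - 1)) := by
    intro t
    refine (hlo t).trans ?_
    have h1 := hf_le L k I f c S t (t / q) hinv hc (fun u hu => by
      obtain ⟨cc, h1, h2⟩ := hM t u hu
      refine ⟨cc, fun m => ?_, ?_⟩
      · rw [Nat.le_div_iff_mul_le hq, mul_comm]
        exact h1 m
      · rw [hS]
        exact h2)
    refine h1.trans (Nat.mul_le_mul_left _ ((hB _).trans (Nat.mul_le_mul_left _ ?_)))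
    exact Nat.pow_le_pow_left (Nat.add_le_add_right (Nat.div_le_self t q) 1) _
  obtain ⟨n, rfl⟩ : ∃ n, N = n + 1 := ⟨N - 1, by omega⟩
  have hmain : ∀ t, t + 1 ≤ (n + 1).factorial * (S.card * B) := by
    intro t
    have h1 : (t + 1) ^ (n + 1) ≤ (t + 1).ascFactorial (n + 1) := Nat.pow_succ_le_ascFactorial _ _
    rw [Nat.ascFactorial_eq_factorial_mul_choose] at h1
    have h2 := h1.trans (Nat.mul_le_mul_left _ (hbd t))
    rw [Nat.add_sub_cancel] at h2
    have h3 : (n + 1).factorial * (S.card * (B * (t + 1) ^ n)) =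
        (n + 1).factorial * (S.card * B) * (t + 1) ^ n := by ring
    rw [h3, pow_succ'] at h2
    exact Nat.le_of_mul_le_mul_right h2 (Nat.pow_pos (Nat.succ_pos t))
  have := hmain ((n + 1).factorial * (S.card * B))
  omega

end Pool.Agent.H40.HX
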